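import Pool.Agent.Lib.MP_6bc78b_nt.LW.Iface

/-! Project LW, module W8: the moments of `B` over the zeros in a window. -/

set_option autoImplicit false

open Complex Filter Topology MeasureTheory ArithmeticFunction

namespace Pool.Agent.Lib.MP_6bc78b_nt.LW.H94

open Pool.Agent.Lib.MP_6bc78b_nt
open Pool.Agent.Lib.MP_6bc78b_nt.MS Pool.Agent.Lib.MP_6bc78b_nt.MS.P1
open Pool.Agent.Lib.MP_6bc78b_nt.MS.P5 Pool.Agent.Lib.MP_6bc78b_nt.MS.P5.HM
open Pool.Agent.Lib.MP_6bc78b_nt.LW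

lemma cL_nonneg (H : ℝ) (hH : 0 ≤ H) : 0 ≤ cL H := by
  unfold cL
  positivity

lemma wl_pos (t H γ : ℝ) : 0 < wl t H γ := Real.exp_pos _

/-- The bound for `BP^k`. -/
lemma bp_part (hZ : ZdLStatement) (hLS : LSerStatement) (a0 lam : ℝ)
    (k : ℕ) (ha0 : 0 < a0) (ha1 : a0 < 1 / 2) (hlam : 0 < lam) (hk : 1 ≤ k)
    (hkl : (k : ℝ) * lam < 1) :
    ∃ T0 : ℝ, ∀ T t H : ℝ, T0 ≤ T → Rng a0 T t H → ∀ hf : (zset t).Finite,
      ∑ γ ∈ hf.toFinset, (mz γ : ℝ) * wl t H γ * ‖BP lam T (1 / 2 + γ * I)‖ ^ (2 * k) ≤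
        cL H * ((Real.log T + 2) * ((k.factorial : ℝ) *
          (∑ n ∈ Finset.Icc 1 ⌊T ^ lam⌋₊, bb lam T n * bb lam T n / n) ^ k +
          ‖NB (2 * ⌊T ^ (k * lam)⌋₊) T H ((bp lam T) ^ k : ArithmeticFunction ℝ)
            ((bp lam T) ^ k : ArithmeticFunction ℝ) t‖) +
          2 * ‖NB (2 * ⌊T ^ (k * lam)⌋₊) T H (La * (bp lam T) ^ k : ArithmeticFunction ℝ)
            ((bp lam T) ^ k : ArithmeticFunction ℝ) t‖) + 10 := by
  have hk1 : (1 : ℝ) ≤ k := by exact_mod_cast hk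
  have hkl0 : 0 < (k : ℝ) * lam := by positivity
  obtain ⟨T0, hT0⟩ := hZ a0 ha0 ha1
  have h2 : ∀ᶠ T : ℝ in atTop, 1 ≤ lam * Real.log T := by
    have := Real.tendsto_log_atTop.eventually (eventually_ge_atTop (1 / lam))
    filter_upwards [this] with T hT
    rw [div_le_iff₀ hlam] at hT
    linarith
  obtain ⟨T1, hT1⟩ := Filter.eventually_atTop.1 (h2.and ((eventually_ge_atTop T0).and
    ((eventually_ge_atTop (k.factorial : ℝ)).and (eventually_gt_atTop (1 : ℝ)))))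
  refine ⟨T1, fun T t H hT hR hf => ?_⟩
  obtain ⟨hL, hTT0, hfac, hT1⟩ := hT1 T hT
  have hTpos : 0 < T := by linarith
  have hH : 0 ≤ H := (Real.rpow_nonneg hTpos.le a0).trans hR.2.2.1
  have hcL := cL_nonneg H hH
  have hlog : 0 < Real.log T := Real.log_pos hT1
  set M := ⌊T ^ (k * lam)⌋₊ with hM
  have hMT : (M : ℝ) ≤ T := by
    have h1 : (M : ℝ) ≤ T ^ (k * lam) := Nat.floor_le (by positivity)
    have h2 : T ^ (k * lam) ≤ T ^ (1 : ℝ) := Real.rpow_le_rpow_of_exponent_le hT1.le hkl.le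
    rw [Real.rpow_one] at h2
    linarith
  have hbp0 : ∀ n, 0 ≤ bp lam T n := H59.bp_nonneg lam T (by linarith) hT1
  have hbp1 : ∀ n, bp lam T n ≤ 1 := bp_le_one lam T hlam hT1
  have hbpp : ∀ n, bp lam T n ≠ 0 → n.Prime := by
    intro n hn
    rw [H59.bp_apply] at hn
    by_contra h
    rw [if_neg h] at hn
    exact hn rfl
  have hsupp : ∀ n, M < n → (bp lam T ^ k) n = 0 := by
    intro n hn
    by_contra h
    have h3 := H59.pow_supp' lam T (1 - k * lam) k hT1 (by linarith) n h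
    rw [show (1 : ℝ) - (1 - k * lam) = k * lam by ring] at h3
    exact absurd (Nat.le_floor h3) (by omega)
  have h3 := hT0 T t H hTT0 hR M (bp lam T ^ k) hMT (fun n => ⟨H97.pow_nonneg' _ hbp0 k n,
    (pow_le_factorial _ hbp0 hbp1 hbpp k n).trans hfac⟩) hsupp
  rw [finsum_mem_eq_finite_toFinset_sum _ hf] at h3
  have h4 : ∀ s : ℂ, PD (bp lam T ^ k) M s = BP lam T s ^ k := by
    intro s
    rw [H59.BP_pow hLS lam T k M hsupp s]
    rfl
  have h5 : ∑ γ ∈ hf.toFinset, (mz γ : ℝ) * wl t H γ * ‖BP lam T (1 / 2 + γ * I)‖ ^ (2 * k) =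
      ∑ γ ∈ hf.toFinset, (mz γ : ℝ) * wl t H γ * ‖PD (bp lam T ^ k) M (1 / 2 + γ * I)‖ ^ 2 := by
    refine Finset.sum_congr rfl fun γ _ => ?_
    rw [h4, norm_pow, ← pow_mul, mul_comm 2 k]
  rw [h5]
  refine h3.trans ?_
  have h6 := H97.cmb (bp lam T) ⌊T ^ lam⌋₊ M k hbp0 (fun n hn => ⟨hbpp n hn,
    Nat.le_floor (H59.bp_supp lam T n hn)⟩)
  have h7 : ∑ p ∈ Finset.Icc 1 ⌊T ^ lam⌋₊, bp lam T p ^ 2 / (p : ℝ) ≤
      ∑ n ∈ Finset.Icc 1 ⌊T ^ lam⌋₊, bb lam T n * bb lam T n / n := by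
    refine Finset.sum_le_sum fun n _ => ?_
    apply div_le_div_of_nonneg_right _ (Nat.cast_nonneg n)
    have hb := bb_nonneg lam T (by linarith) hT1 n
    rw [H59.bp_apply]
    split_ifs
    · rw [sq]
    · rw [sq]
      nlinarith
  have h8 : 0 ≤ ∑ p ∈ Finset.Icc 1 ⌊T ^ lam⌋₊, bp lam T p ^ 2 / (p : ℝ) :=
    Finset.sum_nonneg fun n _ => by positivity
  have h9 : ∑ n ∈ Finset.Icc 1 M, (bp lam T ^ k) n ^ 2 / (n : ℝ) ≤ (k.factorial : ℝ) *
      (∑ n ∈ Finset.Icc 1 ⌊T ^ lam⌋₊, bb lam T n * bb lam T n / n) ^ k :=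
    h6.trans (by gcongr)
  gcongr

/-- The bound for the prime powers. -/
lemma bq_part (hZ : ZdLStatement) (hP : PpwStatement) (a0 lam : ℝ)
    (ha0 : 0 < a0) (ha1 : a0 < 1 / 2) (hlam : 0 < lam) (hlam1 : lam < 1) : ∃ C T0 : ℝ, 0 < C ∧
    ∀ T t H : ℝ, T0 ≤ T → Rng a0 T t H → ∀ hf : (zset t).Finite,
      (∀ y : ℝ, ‖BB lam T (1 / 2 + y * I) - BP lam T (1 / 2 + y * I)‖ ≤ C) ∧
      ∑ γ ∈ hf.toFinset, (mz γ : ℝ) * wl t H γ *
        ‖BB lam T (1 / 2 + γ * I) - BP lam T (1 / 2 + γ * I)‖ ^ 2 ≤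
        cL H * ((Real.log T + 2) * (C / (lam * Real.log T) +
          ‖NB (2 * ⌊T ^ lam⌋₊) T H (bq lam T) (bq lam T) t‖) +
          2 * ‖NB (2 * ⌊T ^ lam⌋₊) T H (La * bq lam T : ArithmeticFunction ℝ) (bq lam T) t‖) + 10 := by
  obtain ⟨C1, hC1, h1⟩ := bq_norm hP
  obtain ⟨C2, hC2, h2⟩ := bq_l2 hP
  obtain ⟨T0, hT0⟩ := hZ a0 ha0 ha1
  have e2 : ∀ᶠ T : ℝ in atTop, 1 ≤ lam * Real.log T := by
    have := Real.tendsto_log_atTop.eventually (eventually_ge_atTop (1 / lam))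
    filter_upwards [this] with T hT
    rw [div_le_iff₀ hlam] at hT
    linarith
  obtain ⟨T1, hT1⟩ := Filter.eventually_atTop.1 (e2.and ((eventually_ge_atTop T0).and
    (eventually_ge_atTop (3 : ℝ))))
  refine ⟨max C1 C2, T1, lt_max_of_lt_left hC1, fun T t H hT hR hf => ?_⟩
  obtain ⟨hL, hTT0, hT3⟩ := hT1 T hT
  have hT1 : 1 < T := by linarith
  have hTpos : 0 < T := by linarith
  have hH : 0 ≤ H := (Real.rpow_nonneg hTpos.le a0).trans hR.2.2.1
  have hcL := cL_nonneg H hH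
  have hlog : 0 < Real.log T := Real.log_pos hT1
  have hlam' : 1 / Real.log T ≤ lam := by
    rw [div_le_iff₀ hlog]
    linarith
  have hMT : ((⌊T ^ lam⌋₊ : ℕ) : ℝ) ≤ T := by
    have h1 : ((⌊T ^ lam⌋₊ : ℕ) : ℝ) ≤ T ^ lam := Nat.floor_le (by positivity)
    have h2 : T ^ lam ≤ T ^ (1 : ℝ) := Real.rpow_le_rpow_of_exponent_le hT1.le hlam1.le
    rw [Real.rpow_one] at h2
    linarith
  have hdiff : ∀ s : ℂ, BB lam T s - BP lam T s = PD (bq lam T) ⌊T ^ lam⌋₊ s := by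
    intro s
    rw [BB_split, add_sub_cancel_left]
  refine ⟨fun y => ?_, ?_⟩
  · rw [hdiff]
    exact (h1 T lam y hT3 hlam').trans (le_max_left _ _)
  · have h3 := hT0 T t H hTT0 hR ⌊T ^ lam⌋₊ (bq lam T) hMT
      (fun n => ⟨bq_nonneg lam T (by linarith) hT1 n,
      (bq_le_one lam T hlam hT1 n).trans (by linarith)⟩) (bq_supp' lam T)
    rw [finsum_mem_eq_finite_toFinset_sum _ hf] at h3
    have h5 : ∑ γ ∈ hf.toFinset, (mz γ : ℝ) * wl t H γ *
        ‖BB lam T (1 / 2 + γ * I) - BP lam T (1 / 2 + γ * I)‖ ^ 2 =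
      ∑ γ ∈ hf.toFinset, (mz γ : ℝ) * wl t H γ *
        ‖PD (bq lam T) ⌊T ^ lam⌋₊ (1 / 2 + γ * I)‖ ^ 2 := by
      refine Finset.sum_congr rfl fun γ _ => ?_
      rw [hdiff]
    rw [h5]
    refine h3.trans ?_
    have h6 := h2 T lam hT3 hlam hlam'
    have h7 : C2 / (lam * Real.log T) ≤ max C1 C2 / (lam * Real.log T) := by
      gcongr
      exact le_max_right _ _
    have h8 := h6.trans h7
    gcongr

/-- MML: the moments of `B` over the zeros in a window. -/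
theorem mmL (hz : ZfacStatement) (hZ : ZdLStatement) (hLS : LSerStatement) (hP : PpwStatement)
    (hPr : PrimeSumStatement) : MmLStatement := by
  intro a0 lam η k ha0 ha1 hlam hk hkl hη
  have hk1 : (1 : ℝ) ≤ k := by exact_mod_cast hk
  have hlam1 : lam < 1 := by nlinarith
  obtain ⟨C, T1, hC, hq⟩ := bq_part hZ hP a0 lam ha0 ha1 hlam hlam1
  obtain ⟨T2, hp⟩ := bp_part hZ hLS a0 lam k ha0 ha1 hlam hk hkl
  -- the choice of theta
  obtain ⟨θ, hθ, hθ'⟩ : ∃ θ : ℝ, 0 < θ ∧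
      (1 + θ) ^ (2 * k) * ((k.factorial : ℝ) / 12 ^ k) < (k.factorial : ℝ) / 12 ^ k + η := by
    have hc : Tendsto (fun θ : ℝ => (1 + θ) ^ (2 * k) * ((k.factorial : ℝ) / 12 ^ k)) (𝓝[>] 0)
        (𝓝 ((1 + 0) ^ (2 * k) * ((k.factorial : ℝ) / 12 ^ k))) := by
      apply Tendsto.mono_left _ nhdsWithin_le_nhds
      apply Continuous.tendsto
      fun_prop
    have h1 : (1 + 0 : ℝ) ^ (2 * k) * ((k.factorial : ℝ) / 12 ^ k) <
        (k.factorial : ℝ) / 12 ^ k + η := by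
      rw [add_zero, one_pow, one_mul]; linarith
    have h2 := (hc.eventually (gt_mem_nhds h1)).and self_mem_nhdsWithin
    obtain ⟨θ, h3, h4⟩ := h2.exists
    exact ⟨θ, h4, h3⟩
  set A1 : ℝ := (1 + θ) ^ (2 * k) with hA1
  set A2 : ℝ := (1 + 1 / θ) ^ (2 * k) * C ^ (2 * k - 2) with hA2
  have hA10 : 0 < A1 := by positivity
  have hA20 : 0 < A2 := by positivity
  -- the limit
  set g : ℝ → ℝ := fun T => (1 + 2 / Real.log T) * (A1 * ((k.factorial : ℝ) *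
      (∑ n ∈ Finset.Icc 1 ⌊T ^ lam⌋₊, bb lam T n * bb lam T n / n) ^ k) +
      A2 * (C / (lam * Real.log T))) + ((A1 * 10 + A2 * 10) * (2 * Real.sqrt Real.pi)) / (T ^ a0)
    with hg
  have hgl : Tendsto g atTop (𝓝 ((1 + 0) * (A1 * ((k.factorial : ℝ) * (1 / 12) ^ k) + A2 * 0) +
      0)) := by
    apply Tendsto.add
    · apply Tendsto.mul
      · apply Tendsto.const_add
        exact Tendsto.const_div_atTop Real.tendsto_log_atTop _
      · apply Tendsto.add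
        · exact (((hPr.2 lam hlam hlam1).pow k).const_mul _).const_mul _
        · apply Tendsto.const_mul
          apply Tendsto.const_div_atTop
          exact Real.tendsto_log_atTop.const_mul_atTop hlam
    · exact Tendsto.const_div_atTop (tendsto_rpow_atTop ha0) _
  have hlim : (1 + 0) * (A1 * ((k.factorial : ℝ) * (1 / 12) ^ k) + A2 * 0) + 0 <
      (k.factorial : ℝ) / 12 ^ k + η := by
    have : (k.factorial : ℝ) * (1 / 12) ^ k = (k.factorial : ℝ) / 12 ^ k := by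
      rw [one_div, inv_pow, div_eq_mul_inv]
    rw [this]
    linarith
  have hlog2 : ∀ᶠ T : ℝ in atTop, 2 ≤ Real.log T :=
    Real.tendsto_log_atTop.eventually (eventually_ge_atTop 2)
  obtain ⟨T3, hT3⟩ := Filter.eventually_atTop.1 ((hgl.eventually (gt_mem_nhds hlim)).and
    ((eventually_ge_atTop T1).and ((eventually_ge_atTop T2).and
    ((eventually_gt_atTop (1 : ℝ)).and hlog2))))
  refine ⟨2 * (A1 + A2), T3, by positivity, fun T t H hT hR => ?_⟩
  obtain ⟨hgT, hTT1, hTT2, hT1, hlog⟩ := hT3 T hT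
  have hTpos : 0 < T := by linarith
  have hTa : 0 < T ^ a0 := Real.rpow_pos_of_pos hTpos a0
  have hH : 0 < H := hTa.trans_le hR.2.2.1
  have hcL := cL_nonneg H hH.le
  have hlog0 : 0 < Real.log T := by linarith
  have hf : (zset t).Finite := hz.2.2.2.2.2.2 t
  obtain ⟨hq1, hq2⟩ := hq T t H hTT1 hR hf
  have hp := hp T t H hTT2 hR hf
  rw [finsum_mem_eq_finite_toFinset_sum _ hf]
  have hwt : ∀ γ : ℝ, 0 ≤ (mz γ : ℝ) * wl t H γ := fun γ =>
    mul_nonneg (Nat.cast_nonneg _) (Real.exp_pos _).le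
  have h1 : ∀ γ ∈ hf.toFinset, (mz γ : ℝ) * wl t H γ * ‖BB lam T (1 / 2 + γ * I)‖ ^ (2 * k) ≤
      A1 * ((mz γ : ℝ) * wl t H γ * ‖BP lam T (1 / 2 + γ * I)‖ ^ (2 * k)) +
      A2 * ((mz γ : ℝ) * wl t H γ *
        ‖BB lam T (1 / 2 + γ * I) - BP lam T (1 / 2 + γ * I)‖ ^ 2) := by
    intro γ _
    set x := ‖BP lam T (1 / 2 + γ * I)‖ with hx
    set y := ‖BB lam T (1 / 2 + γ * I) - BP lam T (1 / 2 + γ * I)‖ with hy
    have hx0 : 0 ≤ x := norm_nonneg _
    have hy0 : 0 ≤ y := norm_nonneg _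
    have hxy : ‖BB lam T (1 / 2 + γ * I)‖ ≤ x + y := by
      calc ‖BB lam T (1 / 2 + γ * I)‖ = ‖BP lam T (1 / 2 + γ * I) +
            (BB lam T (1 / 2 + γ * I) - BP lam T (1 / 2 + γ * I))‖ := by congr 1; ring
        _ ≤ x + y := norm_add_le _ _
    have h2 : ‖BB lam T (1 / 2 + γ * I)‖ ^ (2 * k) ≤ A1 * x ^ (2 * k) + A2 * y ^ 2 := by
      refine (pow_le_pow_left₀ (norm_nonneg _) hxy _).trans
        ((add_pow_le' x y θ (2 * k) hx0 hy0 hθ).trans ?_)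
      have h3 : y ^ (2 * k) ≤ C ^ (2 * k - 2) * y ^ 2 := by
        have h4 : y ^ (2 * k) = y ^ (2 * k - 2) * y ^ 2 := by
          rw [← pow_add]
          congr 1
          omega
        rw [h4]
        have : y ≤ C := hq1 γ
        gcongr
      have h5 : (1 + 1 / θ) ^ (2 * k) * y ^ (2 * k) ≤
          (1 + 1 / θ) ^ (2 * k) * (C ^ (2 * k - 2) * y ^ 2) := by gcongr
      have h6 : (1 + 1 / θ) ^ (2 * k) * (C ^ (2 * k - 2) * y ^ 2) = A2 * y ^ 2 := by
        rw [hA2]; ring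
      linarith
    have h3 := mul_le_mul_of_nonneg_left h2 (hwt γ)
    calc _ ≤ _ := h3
      _ = _ := by ring
  refine (Finset.sum_le_sum h1).trans ?_
  rw [Finset.sum_add_distrib, ← Finset.mul_sum, ← Finset.mul_sum]
  have h2 := mul_le_mul_of_nonneg_left hp hA10.le
  have h3 := mul_le_mul_of_nonneg_left hq2 hA20.le
  refine (add_le_add h2 h3).trans ?_
  unfold Ek
  set N1 := ‖NB (2 * ⌊T ^ (k * lam)⌋₊) T H ((bp lam T) ^ k : ArithmeticFunction ℝ)
    ((bp lam T) ^ k : ArithmeticFunction ℝ) t‖ with hN1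
  set N2 := ‖NB (2 * ⌊T ^ (k * lam)⌋₊) T H (La * (bp lam T) ^ k : ArithmeticFunction ℝ)
    ((bp lam T) ^ k : ArithmeticFunction ℝ) t‖ with hN2
  set N3 := ‖NB (2 * ⌊T ^ lam⌋₊) T H (bq lam T) (bq lam T) t‖ with hN3
  set N4 := ‖NB (2 * ⌊T ^ lam⌋₊) T H (La * bq lam T : ArithmeticFunction ℝ) (bq lam T) t‖ with hN4
  have n1 : 0 ≤ N1 := norm_nonneg _
  have n2 : 0 ≤ N2 := norm_nonneg _
  have n3 : 0 ≤ N3 := norm_nonneg _
  have n4 : 0 ≤ N4 := norm_nonneg _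
  set S := (k.factorial : ℝ) *
      (∑ n ∈ Finset.Icc 1 ⌊T ^ lam⌋₊, bb lam T n * bb lam T n / n) ^ k with hS
  set R := C / (lam * Real.log T) with hR'
  -- the constant term
  have hconst : A1 * 10 + A2 * 10 ≤ cL H * Real.log T *
      (((A1 * 10 + A2 * 10) * (2 * Real.sqrt Real.pi)) / (T ^ a0)) := by
    have hπ : 0 < 2 * Real.sqrt Real.pi := by positivity
    have e1 : T ^ a0 / (2 * Real.sqrt Real.pi) ≤ cL H := by
      unfold cL
      gcongr
      exact hR.2.2.1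
    have e2 : T ^ a0 / (2 * Real.sqrt Real.pi) * 1 ≤ cL H * Real.log T := by
      gcongr
      linarith
    have e3 : 0 ≤ ((A1 * 10 + A2 * 10) * (2 * Real.sqrt Real.pi)) / (T ^ a0) := by positivity
    calc A1 * 10 + A2 * 10 = T ^ a0 / (2 * Real.sqrt Real.pi) * 1 *
          (((A1 * 10 + A2 * 10) * (2 * Real.sqrt Real.pi)) / (T ^ a0)) := by
          field_simp
      _ ≤ _ := mul_le_mul_of_nonneg_right e2 e3
  have hmain : cL H * Real.log T * g T ≤ ((k.factorial : ℝ) / 12 ^ k + η) *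
      (cL H * Real.log T) := by
    rw [mul_comm]
    exact mul_le_mul_of_nonneg_right hgT.le (by positivity)
  have hgexp : cL H * Real.log T * g T = cL H * (Real.log T + 2) * (A1 * S + A2 * R) +
      cL H * Real.log T * (((A1 * 10 + A2 * 10) * (2 * Real.sqrt Real.pi)) / (T ^ a0)) := by
    simp only [hg]
    have e : Real.log T * (1 + 2 / Real.log T) = Real.log T + 2 := by
      field_simp
    have e' : cL H * Real.log T * ((1 + 2 / Real.log T) * (A1 * S + A2 * R) +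
        ((A1 * 10 + A2 * 10) * (2 * Real.sqrt Real.pi)) / (T ^ a0)) =
        cL H * (Real.log T * (1 + 2 / Real.log T)) * (A1 * S + A2 * R) +
        cL H * Real.log T * (((A1 * 10 + A2 * 10) * (2 * Real.sqrt Real.pi)) / (T ^ a0)) := by
      ring
    rw [e] at e'
    exact e'
  have herr : A1 * (cL H * ((Real.log T + 2) * N1 + 2 * N2)) +
      A2 * (cL H * ((Real.log T + 2) * N3 + 2 * N4)) ≤
      2 * (A1 + A2) * (cL H * Real.log T) * (N1 + N2 + N3 + N4) := by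
    have e1 : (Real.log T + 2) * N1 + 2 * N2 ≤ 2 * Real.log T * (N1 + N2 + N3 + N4) := by
      nlinarith [mul_nonneg hlog0.le n1, mul_nonneg hlog0.le n2, mul_nonneg hlog0.le n3,
        mul_nonneg hlog0.le n4, mul_nonneg (sub_nonneg.2 hlog) n1,
        mul_nonneg (sub_nonneg.2 hlog) n2]
    have e2 : (Real.log T + 2) * N3 + 2 * N4 ≤ 2 * Real.log T * (N1 + N2 + N3 + N4) := by
      nlinarith [mul_nonneg hlog0.le n1, mul_nonneg hlog0.le n2, mul_nonneg hlog0.le n3,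
        mul_nonneg hlog0.le n4, mul_nonneg (sub_nonneg.2 hlog) n3,
        mul_nonneg (sub_nonneg.2 hlog) n4]
    have e3 := mul_le_mul_of_nonneg_left (mul_le_mul_of_nonneg_left e1 hcL) hA10.le
    have e4 := mul_le_mul_of_nonneg_left (mul_le_mul_of_nonneg_left e2 hcL) hA20.le
    calc _ ≤ _ := add_le_add e3 e4
      _ = _ := by ring
  calc A1 * (cL H * ((Real.log T + 2) * (S + N1) + 2 * N2) + 10) +
        A2 * (cL H * ((Real.log T + 2) * (R + N3) + 2 * N4) + 10)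
      = cL H * (Real.log T + 2) * (A1 * S + A2 * R) + (A1 * 10 + A2 * 10) +
        (A1 * (cL H * ((Real.log T + 2) * N1 + 2 * N2)) +
        A2 * (cL H * ((Real.log T + 2) * N3 + 2 * N4))) := by ring
    _ ≤ cL H * (Real.log T + 2) * (A1 * S + A2 * R) + cL H * Real.log T *
        (((A1 * 10 + A2 * 10) * (2 * Real.sqrt Real.pi)) / (T ^ a0)) +
        2 * (A1 + A2) * (cL H * Real.log T) * (N1 + N2 + N3 + N4) := by
        gcongr
    _ = cL H * Real.log T * g T +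
        2 * (A1 + A2) * (cL H * Real.log T) * (N1 + N2 + N3 + N4) := by rw [hgexp]
    _ ≤ _ := by gcongr

end Pool.Agent.Lib.MP_6bc78b_nt.LW.H94
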